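import Pool.Agent.helper36.PT.Spec

set_option autoImplicit false

namespace Pool.Agent.PT

open Finset Pool.Agent.helper71.AA

theorem CEX_cop (W : ℕ) (S : Finset ℕ) (l : ℕ) (hl : l.Prime) (hlW : l.Coprime W)
    (hS : ∀ k ∈ S, k.Prime) (hlS : l ∉ S) : IsCoprime ((W * ∏ k ∈ S, k : ℕ) : ℤ) (l : ℤ) := by
  rw [Nat.isCoprime_iff_coprime]
  apply Nat.Coprime.mul_left hlW.symm
  apply Nat.Coprime.prod_left
  intro k hk
  rw [Nat.coprime_primes (hS k hk) hl]
  rintro rfl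
  exact hlS hk

theorem CEX_crt (W : ℕ) (a₀ : ℤ) (r : ℕ → ℤ) (S : Finset ℕ) :
    (∀ l ∈ S, l.Prime ∧ l.Coprime W) →
    ∃ c : ℤ, (W : ℤ) ∣ c - a₀ ∧ ∀ l ∈ S, (l : ℤ) ∣ c - r l := by
  induction S using Finset.induction_on with
  | empty => intro _; exact ⟨a₀, by simp, by simp⟩
  | insert l S hl ih =>
    intro hS
    obtain ⟨c, hc1, hc2⟩ := ih (fun k hk => hS k (mem_insert_of_mem hk))
    have hlp := hS l (mem_insert_self l S)
    obtain ⟨u, v, huv⟩ := CEX_cop W S l hlp.1 hlp.2 (fun k hk => (hS k (mem_insert_of_mem hk)).1) hl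
    set M : ℤ := ((W * ∏ k ∈ S, k : ℕ) : ℤ) with hM
    have hWM : (W : ℤ) ∣ M := by
      rw [hM, Int.natCast_dvd_natCast]
      exact dvd_mul_right _ _
    have hkM : ∀ k ∈ S, (k : ℤ) ∣ M := by
      intro k hk
      rw [hM, Int.natCast_dvd_natCast]
      exact (Finset.dvd_prod_of_mem _ hk).mul_left _
    refine ⟨c + M * (u * (r l - c)), ?_, ?_⟩
    · have e : c + M * (u * (r l - c)) - a₀ = (c - a₀) + M * (u * (r l - c)) := by ring
      rw [e]
      exact dvd_add hc1 (hWM.mul_right _)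
    · intro k hk
      rcases mem_insert.1 hk with rfl | hk
      · have e : c + M * (u * (r k - c)) - r k = (k : ℤ) * (v * (c - r k)) := by
          linear_combination (r k - c) * huv
        rw [e]
        exact dvd_mul_right _ _
      · have e : c + M * (u * (r l - c)) - r k = (c - r k) + M * (u * (r l - c)) := by ring
        rw [e]
        exact dvd_add (hc2 k hk) ((hkM k hk).mul_right _)

theorem CEX_dvd (W : ℕ) (x : ℤ) (S : Finset ℕ) :
    (∀ l ∈ S, l.Prime ∧ l.Coprime W) →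
    (((W * ∏ l ∈ S, l : ℕ) : ℤ) ∣ x ↔ (W : ℤ) ∣ x ∧ ∀ l ∈ S, (l : ℤ) ∣ x) := by
  induction S using Finset.induction_on with
  | empty => intro _; simp
  | insert l S hl ih =>
    intro hS
    have hlp := hS l (mem_insert_self l S)
    have hco := CEX_cop W S l hlp.1 hlp.2 (fun k hk => (hS k (mem_insert_of_mem hk)).1) hl
    have ih' := ih (fun k hk => hS k (mem_insert_of_mem hk))
    have e : ((W * ∏ k ∈ insert l S, k : ℕ) : ℤ) = ((W * ∏ k ∈ S, k : ℕ) : ℤ) * (l : ℤ) := by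
      rw [prod_insert hl]; push_cast; ring
    rw [e]
    constructor
    · intro h
      have h1 := ih'.1 ((dvd_mul_right _ _).trans h)
      refine ⟨h1.1, fun k hk => ?_⟩
      rcases mem_insert.1 hk with rfl | hk
      · exact (dvd_mul_left _ _).trans h
      · exact h1.2 k hk
    · rintro ⟨h1, h2⟩
      exact hco.mul_dvd (ih'.2 ⟨h1, fun k hk => h2 k (mem_insert_of_mem hk)⟩)
        (h2 l (mem_insert_self l S))

theorem CEX_pco (l p : ℕ) (hl : l.Prime) (hp : p.Prime) (hpl : l ≠ p) :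
    IsCoprime ((l : ℤ)) ((p : ℤ) ^ 2) := by
  apply IsCoprime.pow_right
  rw [Nat.isCoprime_iff_coprime, Nat.coprime_primes hl hp]
  exact hpl

theorem CEX_inv (l p : ℕ) (hl : l.Prime) (hp : p.Prime) (hpl : l ≠ p) :
    ∃ r : ℤ, ∀ a : ℤ, (l : ℤ) ∣ a - r → (l : ℤ) ∣ a * p ^ 2 - 1 := by
  obtain ⟨u, v, huv⟩ := CEX_pco l p hl hp hpl
  refine ⟨v, fun a ha => ?_⟩
  have e : a * (p : ℤ) ^ 2 - 1 = (a - v) * (p : ℤ) ^ 2 - l * u := by
    linear_combination huv
  rw [e]
  exact dvd_sub (ha.mul_right _) (dvd_mul_right _ _)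

theorem CEX : CEX_stmt := by
  intro w a₀ Q p q hQ hp hq D hD E hE
  classical
  have hDQ : ∀ l ∈ D, l ∈ Q ∧ l ≠ p := fun l hl => by
    have := mem_erase.1 (hD hl); exact ⟨this.2, this.1⟩
  have hEQ : ∀ l ∈ E, l ∈ Q ∧ l ≠ q := fun l hl => by
    have := mem_erase.1 (hE hl); exact ⟨this.2, this.1⟩
  have hcop : ∀ l ∈ D ∪ E, l.Prime ∧ l.Coprime (primorial w) := by
    intro l hl
    have hlQ : l ∈ Q := by
      rcases mem_union.1 hl with h | h
      · exact (hDQ l h).1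
      · exact (hEQ l h).1
    refine ⟨(hQ l hlQ).1, ?_⟩
    rw [Nat.Prime.coprime_iff_not_dvd (hQ l hlQ).1]
    intro hd
    rw [primorial, (Nat.prime_iff.1 (hQ l hlQ).1).dvd_finsetProd_iff] at hd
    obtain ⟨k, hk, hlk⟩ := hd
    rw [mem_filter, mem_range] at hk
    have := Nat.le_of_dvd hk.2.pos hlk
    have := (hQ l hlQ).2
    omega
  refine ⟨fun hN => ⟨?_, ?_⟩, ?_⟩
  · have hrp : ∀ l : ℕ, ∃ r : ℤ, l ∈ D → ∀ a : ℤ, (l : ℤ) ∣ a - r → (l : ℤ) ∣ a * p ^ 2 - 1 := by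
      intro l
      by_cases h : l ∈ D
      · obtain ⟨r, hr⟩ := CEX_inv l p (hQ l (hDQ l h).1).1 hp (hDQ l h).2
        exact ⟨r, fun _ => hr⟩
      · exact ⟨0, fun h' => absurd h' h⟩
    have hrq : ∀ l : ℕ, ∃ r : ℤ, l ∈ E → ∀ a : ℤ, (l : ℤ) ∣ a - r → (l : ℤ) ∣ a * q ^ 2 - 1 := by
      intro l
      by_cases h : l ∈ E
      · obtain ⟨r, hr⟩ := CEX_inv l q (hQ l (hEQ l h).1).1 hq (hEQ l h).2
        exact ⟨r, fun _ => hr⟩
      · exact ⟨0, fun h' => absurd h' h⟩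
    choose rp hrp using hrp
    choose rq hrq using hrq
    obtain ⟨c, hc1, hc2⟩ := CEX_crt (primorial w) a₀ (fun l => if l ∈ D then rp l else rq l)
      (D ∪ E) hcop
    have hcD : ∀ l ∈ D, (l : ℤ) ∣ c * p ^ 2 - 1 := by
      intro l hl
      have h := hc2 l (mem_union_left _ hl)
      simp only [hl, if_true] at h
      exact hrp l hl c h
    refine ⟨c, hc1, hcD, fun l hl => ?_⟩
    by_cases h : l ∈ D
    · have h1 := hcD l h
      have h2 : (l : ℤ) ∣ (p : ℤ) ^ 2 - (q : ℤ) ^ 2 := by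
        have := hN (mem_inter.2 ⟨h, hl⟩)
        rw [Nn, mem_filter] at this
        exact this.2
      have e : c * (q : ℤ) ^ 2 - 1 = (c * (p : ℤ) ^ 2 - 1) - c * ((p : ℤ) ^ 2 - (q : ℤ) ^ 2) := by
        ring
      rw [e]
      exact dvd_sub h1 (h2.mul_left _)
    · have h' := hc2 l (mem_union_right _ hl)
      simp only [h, if_false] at h'
      exact hrq l hl c h'
  · intro c hc a
    obtain ⟨hc0, hcD, hcE⟩ := hc
    rw [CEX_dvd (primorial w) (a - c) (D ∪ E) hcop]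
    constructor
    · rintro ⟨h0, h1, h2⟩
      refine ⟨?_, fun l hl => ?_⟩
      · have e : a - c = (a - a₀) - (c - a₀) := by ring
        rw [e]
        exact dvd_sub h0 hc0
      · rcases mem_union.1 hl with h | h
        · have g1 := h1 h
          rw [Az, mem_filter] at g1
          have g2 := hcD l h
          have g3 : (l : ℤ) ∣ (a - c) * (p : ℤ) ^ 2 := by
            have e : (a - c) * (p : ℤ) ^ 2 = (a * (p : ℤ) ^ 2 - 1) - (c * (p : ℤ) ^ 2 - 1) := by ring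
            rw [e]
            exact dvd_sub g1.2 g2
          exact (CEX_pco l p (hQ l (hDQ l h).1).1 hp (hDQ l h).2).dvd_of_dvd_mul_right g3
        · have g1 := h2 h
          rw [Az, mem_filter] at g1
          have g2 := hcE l h
          have g3 : (l : ℤ) ∣ (a - c) * (q : ℤ) ^ 2 := by
            have e : (a - c) * (q : ℤ) ^ 2 = (a * (q : ℤ) ^ 2 - 1) - (c * (q : ℤ) ^ 2 - 1) := by ring
            rw [e]
            exact dvd_sub g1.2 g2
          exact (CEX_pco l q (hQ l (hEQ l h).1).1 hq (hEQ l h).2).dvd_of_dvd_mul_right g3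
    · rintro ⟨h0, h1⟩
      refine ⟨?_, fun l hl => ?_, fun l hl => ?_⟩
      · have e : a - a₀ = (a - c) + (c - a₀) := by ring
        rw [e]
        exact dvd_add h0 hc0
      · rw [Az, mem_filter]
        refine ⟨(hDQ l hl).1, ?_⟩
        have e : a * (p : ℤ) ^ 2 - 1 = (a - c) * (p : ℤ) ^ 2 + (c * (p : ℤ) ^ 2 - 1) := by ring
        rw [e]
        exact dvd_add ((h1 l (mem_union_left _ hl)).mul_right _) (hcD l hl)
      · rw [Az, mem_filter]
        refine ⟨(hEQ l hl).1, ?_⟩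
        have e : a * (q : ℤ) ^ 2 - 1 = (a - c) * (q : ℤ) ^ 2 + (c * (q : ℤ) ^ 2 - 1) := by ring
        rw [e]
        exact dvd_add ((h1 l (mem_union_right _ hl)).mul_right _) (hcE l hl)
  · intro hN a hA
    apply hN
    intro l hl
    rw [mem_inter] at hl
    have g1 := hA.1 hl.1
    have g2 := hA.2 hl.2
    rw [Az, mem_filter] at g1 g2
    rw [Nn, mem_filter]
    refine ⟨g1.1, ?_⟩
    have h3 : (l : ℤ) ∣ a * ((p : ℤ) ^ 2 - (q : ℤ) ^ 2) := by
      have e : a * ((p : ℤ) ^ 2 - (q : ℤ) ^ 2) = (a * (p : ℤ) ^ 2 - 1) - (a * (q : ℤ) ^ 2 - 1) := by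
        ring
      rw [e]
      exact dvd_sub g1.2 g2.2
    have hlp : Prime (l : ℤ) := Nat.prime_iff_prime_int.1 (hQ l g1.1).1
    rcases hlp.dvd_or_dvd h3 with h | h
    · exfalso
      have h4 : (l : ℤ) ∣ 1 := by
        have e : (1 : ℤ) = a * (p : ℤ) ^ 2 - (a * (p : ℤ) ^ 2 - 1) := by ring
        rw [e]
        exact dvd_sub (h.mul_right _) g1.2
      exact hlp.not_isUnit (isUnit_of_dvd_one h4)
    · exact h

end Pool.Agent.PT
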