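import Pool.Agent.helper95.PT.WH
import Pool.Agent.helper59.PT.Spec2

set_option linter.all false
set_option autoImplicit false

/-!
# Row WH' of the plan for Pate's inequality with three copies (MP_2dd521_co)
-/

namespace Pool.Agent.helper95.PTWH

/-- **pt:WH'** -/
theorem rowWH' : Pool.Agent.helper59.PT.RowWH' := by
  intro ι _ _ c L hL e F he w w' n
  rw [Lam_eq_re]
  exact congrArg Complex.re (words hL e he F w w' n)

end Pool.Agent.helper95.PTWH
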