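import Pool.Agent.helper59.PT.Spec

set_option linter.all false
set_option autoImplicit false

/-!
# Row WH of the plan for Pate's inequality with three copies (MP_2dd521_co)

Words in the legs.
-/

namespace Pool.Agent.helper95.PTWH

open MvPolynomial Pool.Agent.helper59.PT
open scoped ComplexConjugate

section

variable {ι : Type} [Fintype ι] [DecidableEq ι]

/-- the derivative along the leg in the bra `q` -/
noncomputable def DQ (e : ι → ℂ) (q : Fin 3) (Q : MvPolynomial (Sl × ι) ℂ) :
    MvPolynomial (Sl × ι) ℂ := ∑ a, C (e a) * pderiv (Sum.inr q, a) Q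

/-- the derivative along the leg in the ket `p` -/
noncomputable def DP (e : ι → ℂ) (p : Fin 3) (Q : MvPolynomial (Sl × ι) ℂ) :
    MvPolynomial (Sl × ι) ℂ := ∑ a, C (conj (e a)) * pderiv (Sum.inl p, a) Q

theorem DQ_mul (e : ι → ℂ) (q : Fin 3) (A B : MvPolynomial (Sl × ι) ℂ) :
    DQ e q (A * B) = A * DQ e q B + DQ e q A * B := by
  unfold DQ
  rw [Finset.mul_sum, Finset.sum_mul, ← Finset.sum_add_distrib]
  refine Finset.sum_congr rfl fun a _ => ?_
  rw [Derivation.leibniz, smul_eq_mul, smul_eq_mul]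
  ring

theorem DP_mul (e : ι → ℂ) (p : Fin 3) (A B : MvPolynomial (Sl × ι) ℂ) :
    DP e p (A * B) = A * DP e p B + DP e p A * B := by
  unfold DP
  rw [Finset.mul_sum, Finset.sum_mul, ← Finset.sum_add_distrib]
  refine Finset.sum_congr rfl fun a _ => ?_
  rw [Derivation.leibniz, smul_eq_mul, smul_eq_mul]
  ring

theorem DQ_one (e : ι → ℂ) (q : Fin 3) : DQ e q 1 = 0 := by
  unfold DQ
  simp

theorem DP_one (e : ι → ℂ) (p : Fin 3) : DP e p 1 = 0 := by
  unfold DP
  simp

theorem L_C_mul (L : MvPolynomial (Sl × ι) ℂ →ₗ[ℂ] ℂ) (z : ℂ) (Q : MvPolynomial (Sl × ι) ℂ) :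
    L (C z * Q) = z * L Q := by
  rw [← smul_eq_C_mul, map_smul, smul_eq_mul]

theorem step_xi {c : Fin 3 → ℝ} {L : MvPolynomial (Sl × ι) ℂ →ₗ[ℂ] ℂ} (hL : IsG (KC c) L)
    (e : ι → ℂ) (p : Fin 3) (Q : MvPolynomial (Sl × ι) ℂ) :
    L (xi e p * Q) = ∑ q, (circ c p q : ℂ) * L (DQ e q Q) := by
  have h1 : ∀ a : ι, L (X (Sum.inl p, a) * Q) =
      ∑ q, (circ c p q : ℂ) * L (pderiv (Sum.inr q, a) Q) := by
    intro a
    rw [hL.step, Fintype.sum_prod_type, Fintype.sum_sum_type]
    have h2 : ∀ p' : Fin 3, ∑ b : ι, KC c (Sum.inl p, a) (Sum.inl p', b) *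
        L (pderiv (Sum.inl p', b) Q) = 0 := by
      intro p'
      refine Finset.sum_eq_zero fun b _ => ?_
      simp [KC]
    rw [Finset.sum_eq_zero (fun p' _ => h2 p'), zero_add]
    refine Finset.sum_congr rfl fun q _ => ?_
    rw [Finset.sum_eq_single a]
    · simp [KC]
    · intro b _ hb
      simp [KC, Ne.symm hb]
    · intro h
      exact absurd (Finset.mem_univ a) h
  unfold xi DQ
  rw [Finset.sum_mul, map_sum]
  simp only [mul_assoc, L_C_mul, h1, map_sum]
  simp only [Finset.mul_sum]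
  rw [Finset.sum_comm]
  refine Finset.sum_congr rfl fun q _ => ?_
  refine Finset.sum_congr rfl fun a _ => ?_
  ring

theorem step_eta {c : Fin 3 → ℝ} {L : MvPolynomial (Sl × ι) ℂ →ₗ[ℂ] ℂ} (hL : IsG (KC c) L)
    (e : ι → ℂ) (q : Fin 3) (Q : MvPolynomial (Sl × ι) ℂ) :
    L (eta e q * Q) = ∑ p, (circ c p q : ℂ) * L (DP e p Q) := by
  have h1 : ∀ a : ι, L (X (Sum.inr q, a) * Q) =
      ∑ p, (circ c p q : ℂ) * L (pderiv (Sum.inl p, a) Q) := by
    intro a
    rw [hL.step, Fintype.sum_prod_type, Fintype.sum_sum_type]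
    have h2 : ∀ q' : Fin 3, ∑ b : ι, KC c (Sum.inr q, a) (Sum.inr q', b) *
        L (pderiv (Sum.inr q', b) Q) = 0 := by
      intro q'
      refine Finset.sum_eq_zero fun b _ => ?_
      simp [KC]
    rw [Finset.sum_eq_zero (fun q' _ => h2 q'), add_zero]
    refine Finset.sum_congr rfl fun p _ => ?_
    rw [Finset.sum_eq_single a]
    · simp [KC]
    · intro b _ hb
      simp [KC, Ne.symm hb]
    · intro h
      exact absurd (Finset.mem_univ a) h
  unfold eta DP
  rw [Finset.sum_mul, map_sum]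
  simp only [mul_assoc, L_C_mul, h1, map_sum]
  simp only [Finset.mul_sum]
  rw [Finset.sum_comm]
  refine Finset.sum_congr rfl fun p _ => ?_
  refine Finset.sum_congr rfl fun a _ => ?_
  ring

/-! ### the derivatives of the legs -/

theorem DQ_xi (e : ι → ℂ) (q p : Fin 3) : DQ e q (xi e p) = 0 := by
  unfold DQ xi
  refine Finset.sum_eq_zero fun a _ => ?_
  rw [map_sum, Finset.sum_eq_zero, mul_zero]
  intro b _
  rw [Derivation.leibniz, pderiv_C, pderiv_X_of_ne (by simp)]
  simp

theorem DP_eta (e : ι → ℂ) (p q : Fin 3) : DP e p (eta e q) = 0 := by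
  unfold DP eta
  refine Finset.sum_eq_zero fun a _ => ?_
  rw [map_sum, Finset.sum_eq_zero, mul_zero]
  intro b _
  rw [Derivation.leibniz, pderiv_C, pderiv_X_of_ne (by simp)]
  simp

theorem DQ_eta (e : ι → ℂ) (he : ∑ a, e a * conj (e a) = 1) (q q' : Fin 3) :
    DQ e q (eta e q') = if q = q' then 1 else 0 := by
  unfold DQ eta
  have h : ∀ a : ι, pderiv (Sum.inr q, a) (∑ b, C (conj (e b)) * X (Sum.inr q', b) :
      MvPolynomial (Sl × ι) ℂ) = if q = q' then C (conj (e a)) else 0 := by
    intro a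
    rw [map_sum]
    by_cases hq : q = q'
    · subst hq
      rw [Finset.sum_eq_single a]
      · rw [Derivation.leibniz, pderiv_C, pderiv_X_self]
        simp
      · intro b _ hb
        rw [Derivation.leibniz, pderiv_C, pderiv_X_of_ne (by simp [hb])]
        simp
      · intro h
        exact absurd (Finset.mem_univ a) h
    · rw [if_neg hq]
      refine Finset.sum_eq_zero fun b _ => ?_
      rw [Derivation.leibniz, pderiv_C, pderiv_X_of_ne (by simp [Ne.symm hq])]
      simp
  simp only [h]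
  by_cases hq : q = q'
  · simp only [if_pos hq]
    simp only [← C_mul]
    rw [← map_sum, he, map_one]
  · simp only [if_neg hq]
    simp

/-! ### the derivatives of the products of the factors -/

theorem pderiv_pl_ne {σ τ : Sl} (h : σ ≠ τ) (a : ι) (G : MvPolynomial ι ℂ) :
    pderiv (τ, a) (pl σ G) = 0 := by
  unfold pl
  induction G using MvPolynomial.induction_on with
  | C z => simp
  | add p q hp hq => rw [map_add, map_add, hp, hq, add_zero]
  | mul_X p i hp =>
    rw [map_mul, Derivation.leibniz, hp, rename_X, pderiv_X_of_ne (by simp [h])]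
    simp

theorem pderiv_pl_self (σ : Sl) (a : ι) (G : MvPolynomial ι ℂ) :
    pderiv (σ, a) (pl σ G) = pl σ (pderiv a G) := by
  unfold pl
  exact pderiv_rename (f := Prod.mk σ) (fun x y hxy => (Prod.mk.inj hxy).2) a G

theorem DQ_pl_inl (e : ι → ℂ) (q p : Fin 3) (G : MvPolynomial ι ℂ) :
    DQ e q (pl (Sum.inl p) G) = 0 := by
  unfold DQ
  refine Finset.sum_eq_zero fun a _ => ?_
  rw [pderiv_pl_ne (by simp), mul_zero]

theorem DP_pl_inr (e : ι → ℂ) (p q : Fin 3) (G : MvPolynomial ι ℂ) :
    DP e p (pl (Sum.inr q) G) = 0 := by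
  unfold DP
  refine Finset.sum_eq_zero fun a _ => ?_
  rw [pderiv_pl_ne (by simp), mul_zero]

theorem DP_pl_inl (e : ι → ℂ) (p p' : Fin 3) (G : MvPolynomial ι ℂ) :
    DP e p (pl (Sum.inl p') G) = if p' = p then pl (Sum.inl p') (dE e G) else 0 := by
  unfold DP
  by_cases h : p' = p
  · subst h
    rw [if_pos rfl]
    simp only [pderiv_pl_self]
    unfold dE pl
    rw [map_sum]
    refine Finset.sum_congr rfl fun a _ => ?_
    rw [map_mul, rename_C]
  · rw [if_neg h]
    refine Finset.sum_eq_zero fun a _ => ?_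
    rw [pderiv_pl_ne (by simp [h]), mul_zero]

theorem DQ_pl_inr (e : ι → ℂ) (q q' : Fin 3) (G : MvPolynomial ι ℂ) :
    DQ e q (pl (Sum.inr q') (cj G)) = if q' = q then pl (Sum.inr q') (cj (dE e G)) else 0 := by
  unfold DQ
  by_cases h : q' = q
  · subst h
    rw [if_pos rfl]
    simp only [pderiv_pl_self]
    unfold dE pl cj
    rw [map_sum, map_sum]
    refine Finset.sum_congr rfl fun a _ => ?_
    rw [map_mul, map_mul, map_C, rename_C, pderiv_map, Complex.conj_conj]
  · rw [if_neg h]
    refine Finset.sum_eq_zero fun a _ => ?_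
    rw [pderiv_pl_ne (by simp [h]), mul_zero]

/-- a derivation on a product of three factors only one of which is moved -/
theorem der_prod {R : Type} [CommRing R] (D : R → R) (hD : ∀ A B, D (A * B) = A * D B + D A * B)
    (f g : Fin 3 → R) (q : Fin 3) (h : ∀ i, D (f i) = if i = q then g i else 0) :
    D (∏ i, f i) = ∏ i, if i = q then g i else f i := by
  rw [Fin.prod_univ_three, Fin.prod_univ_three, hD, hD, h 0, h 1, h 2]
  fin_cases q <;> simp

theorem der_prod_zero {R : Type} [CommRing R] (D : R → R)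
    (hD : ∀ A B, D (A * B) = A * D B + D A * B)
    (f : Fin 3 → R) (h : ∀ i, D (f i) = 0) :
    D (∏ i, f i) = 0 := by
  rw [Fin.prod_univ_three, hD, hD, h 0, h 1, h 2]
  ring

theorem DQ_GM (e : ι → ℂ) (F : MvPolynomial ι ℂ) (q : Fin 3) (a b : Fin 3 → ℕ) :
    DQ e q (GM e F a b) = GM e F a (fun i => b i + if i = q then 1 else 0) := by
  unfold GM
  rw [DQ_mul, der_prod_zero (DQ e q) (DQ_mul e q) _ (fun i => DQ_pl_inl e q i _), zero_mul,
    add_zero]
  rw [der_prod (DQ e q) (DQ_mul e q) _ (fun i => pl (Sum.inr i) (cj (dE e ((dE e)^[b i] F)))) q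
    (fun i => DQ_pl_inr e q i _)]
  congr 1
  refine Finset.prod_congr rfl fun i _ => ?_
  by_cases h : i = q
  · simp only [if_pos h, Function.iterate_succ_apply']
  · simp only [if_neg h, add_zero]

theorem DP_GM (e : ι → ℂ) (F : MvPolynomial ι ℂ) (p : Fin 3) (a b : Fin 3 → ℕ) :
    DP e p (GM e F a b) = GM e F (fun i => a i + if i = p then 1 else 0) b := by
  unfold GM
  rw [DP_mul, der_prod_zero (DP e p) (DP_mul e p) _ (fun i => DP_pl_inr e p i _), mul_zero,
    zero_add]
  rw [der_prod (DP e p) (DP_mul e p) _ (fun i => pl (Sum.inl i) (dE e ((dE e)^[a i] F))) p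
    (fun i => DP_pl_inl e p i _)]
  congr 1
  refine Finset.prod_congr rfl fun i _ => ?_
  by_cases h : i = p
  · simp only [if_pos h, Function.iterate_succ_apply']
  · simp only [if_neg h, add_zero]

/-! ### the derivatives of the words -/

theorem DQ_xis (e : ι → ℂ) (q : Fin 3) (w : List (Fin 3)) : DQ e q (w.map (xi e)).prod = 0 := by
  induction w with
  | nil => simp [DQ_one]
  | cons p w ih => rw [List.map_cons, List.prod_cons, DQ_mul, ih, DQ_xi]; ring

theorem DP_etas (e : ι → ℂ) (p : Fin 3) (w : List (Fin 3)) : DP e p (w.map (eta e)).prod = 0 := by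
  induction w with
  | nil => simp [DP_one]
  | cons q w ih => rw [List.map_cons, List.prod_cons, DP_mul, ih, DP_eta]; ring

theorem DQ_etas (e : ι → ℂ) (he : ∑ a, e a * conj (e a) = 1) (q : Fin 3) (w : List (Fin 3)) :
    DQ e q (w.map (eta e)).prod =
      ∑ k : Fin w.length, (if q = w.get k then 1 else 0) * ((w.eraseIdx k).map (eta e)).prod := by
  induction w with
  | nil => simp [DQ_one]
  | cons q' w ih =>
    rw [List.map_cons, List.prod_cons, DQ_mul, ih, DQ_eta e he]
    rw [show (∑ k : Fin (q' :: w).length, (if q = (q' :: w).get k then (1 : MvPolynomial (Sl × ι) ℂ)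
        else 0) * (((q' :: w).eraseIdx k).map (eta e)).prod) =
      ∑ k : Fin (w.length + 1), (if q = (q' :: w).get k then (1 : MvPolynomial (Sl × ι) ℂ)
        else 0) * (((q' :: w).eraseIdx k).map (eta e)).prod from rfl]
    rw [Fin.sum_univ_succ, Finset.mul_sum, add_comm]
    congr 1
    refine Finset.sum_congr rfl fun k _ => ?_
    simp only [Fin.val_succ, List.eraseIdx_cons_succ, List.map_cons, List.prod_cons]
    have h : (q' :: w).get k.succ = w.get k := rfl
    rw [h]
    ring

/-! ### the complex symbol functional -/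

/-- the symbol functional before taking real parts -/
noncomputable def LamC (L : MvPolynomial (Sl × ι) ℂ →ₗ[ℂ] ℂ) (e : ι → ℂ)
    (F : MvPolynomial ι ℂ) : Sy →ₗ[ℝ] ℂ :=
  (basisMonomials Sl ℝ).constr ℝ fun n =>
    (L (GM e F (fun p => n (Sum.inl p)) (fun q => n (Sum.inr q))))

theorem LamC_monomial (L : MvPolynomial (Sl × ι) ℂ →ₗ[ℂ] ℂ) (e : ι → ℂ)
    (F : MvPolynomial ι ℂ) (n : Sl →₀ ℕ) :
    LamC L e F (monomial n 1) = L (GM e F (fun p => n (Sum.inl p)) (fun q => n (Sum.inr q))) := by
  unfold LamC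
  have h : (monomial n (1 : ℝ) : Sy) = basisMonomials Sl ℝ n := by
    rw [coe_basisMonomials]
  rw [h, Module.Basis.constr_basis]

theorem Lam_eq_re (L : MvPolynomial (Sl × ι) ℂ →ₗ[ℂ] ℂ) (e : ι → ℂ)
    (F : MvPolynomial ι ℂ) (A : Sy) : Lam L e F A = (LamC L e F A).re := by
  have h : Lam L e F = Complex.reLm ∘ₗ LamC L e F := by
    refine (basisMonomials Sl ℝ).ext fun n => ?_
    unfold Lam LamC
    rw [LinearMap.comp_apply, Module.Basis.constr_basis, Module.Basis.constr_basis]
    rfl
  rw [h]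
  rfl

theorem LamC_C_mul (L : MvPolynomial (Sl × ι) ℂ →ₗ[ℂ] ℂ) (e : ι → ℂ)
    (F : MvPolynomial ι ℂ) (z : ℝ) (A : Sy) : LamC L e F (C z * A) = (z : ℂ) * LamC L e F A := by
  rw [← smul_eq_C_mul, map_smul, Complex.real_smul]

/-- the exponent with one more derivative in the slot `s` -/
noncomputable def up (n : Sl →₀ ℕ) (s : Sl) : Sl →₀ ℕ := n + Finsupp.single s 1

theorem monomial_up (n : Sl →₀ ℕ) (s : Sl) :
    (monomial (up n s) 1 : Sy) = monomial n 1 * X s := by
  unfold up
  rw [X, monomial_mul, one_mul]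

theorem DQ_GMn (e : ι → ℂ) (F : MvPolynomial ι ℂ) (q : Fin 3) (n : Sl →₀ ℕ) :
    DQ e q (GM e F (fun p => n (Sum.inl p)) (fun q => n (Sum.inr q))) =
      GM e F (fun p => up n (Sum.inr q) (Sum.inl p)) (fun i => up n (Sum.inr q) (Sum.inr i)) := by
  rw [DQ_GM]
  congr 1
  · funext p
    simp [up]
  · funext i
    unfold up
    rw [Finsupp.add_apply, Finsupp.single_apply]
    by_cases h : i = q
    · simp [h]
    · have h' : ¬ (Sum.inr q : Sl) = Sum.inr i := fun hh => h (Sum.inr.inj hh).symm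
      simp [h, h']

theorem DP_GMn (e : ι → ℂ) (F : MvPolynomial ι ℂ) (p : Fin 3) (n : Sl →₀ ℕ) :
    DP e p (GM e F (fun p => n (Sum.inl p)) (fun q => n (Sum.inr q))) =
      GM e F (fun i => up n (Sum.inl p) (Sum.inl i)) (fun q => up n (Sum.inl p) (Sum.inr q)) := by
  rw [DP_GM]
  congr 1
  · funext i
    unfold up
    rw [Finsupp.add_apply, Finsupp.single_apply]
    by_cases h : i = p
    · simp [h]
    · have h' : ¬ (Sum.inl p : Sl) = Sum.inl i := fun hh => h (Sum.inl.inj hh).symm
      simp [h, h']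
  · funext p
    simp [up]

/-! ### the two inductions -/

theorem words_nil {c : Fin 3 → ℝ} {L : MvPolynomial (Sl × ι) ℂ →ₗ[ℂ] ℂ} (hL : IsG (KC c) L)
    (e : ι → ℂ) (F : MvPolynomial ι ℂ) (w' : List (Fin 3)) : ∀ n : Sl →₀ ℕ,
    L ((w'.map (eta e)).prod * GM e F (fun p => n (Sum.inl p)) (fun q => n (Sum.inr q))) =
      LamC L e F (monomial n 1 * (w'.map fun q => ∑ p, C (circ c p q) * X (Sum.inl p)).prod) := by
  induction w' with
  | nil =>
    intro n
    simp only [List.map_nil, List.prod_nil, one_mul, mul_one]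
    rw [LamC_monomial]
  | cons q v ih =>
    intro n
    rw [List.map_cons, List.prod_cons, mul_assoc, step_eta hL]
    simp only [DP_mul, DP_etas, zero_mul, add_zero, DP_GMn, ih, monomial_up]
    rw [List.map_cons, List.prod_cons, Finset.sum_mul, Finset.mul_sum, map_sum]
    refine Finset.sum_congr rfl fun p _ => ?_
    rw [← LamC_C_mul]
    exact congrArg (LamC L e F) (by ring)

theorem words {c : Fin 3 → ℝ} {L : MvPolynomial (Sl × ι) ℂ →ₗ[ℂ] ℂ} (hL : IsG (KC c) L)
    (e : ι → ℂ) (he : ∑ a, e a * conj (e a) = 1) (F : MvPolynomial ι ℂ) (w : List (Fin 3)) :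
    ∀ (w' : List (Fin 3)) (n : Sl →₀ ℕ),
    L ((w.map (xi e)).prod * (w'.map (eta e)).prod *
      GM e F (fun p => n (Sum.inl p)) (fun q => n (Sum.inr q))) =
      LamC L e F (monomial n 1 * WH c w w') := by
  induction w with
  | nil =>
    intro w' n
    rw [List.map_nil, List.prod_nil, one_mul]
    exact words_nil hL e F w' n
  | cons p u ih =>
    intro w' n
    rw [List.map_cons, List.prod_cons, mul_assoc, mul_assoc, step_xi hL]
    have h1 : ∀ q : Fin 3, DQ e q ((u.map (xi e)).prod * ((w'.map (eta e)).prod *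
        GM e F (fun p => n (Sum.inl p)) (fun q => n (Sum.inr q)))) =
        (u.map (xi e)).prod * (w'.map (eta e)).prod *
          GM e F (fun p => up n (Sum.inr q) (Sum.inl p)) (fun i => up n (Sum.inr q) (Sum.inr i)) +
        ∑ k : Fin w'.length, C (if q = w'.get k then 1 else 0) *
          ((u.map (xi e)).prod * ((w'.eraseIdx k).map (eta e)).prod *
          GM e F (fun p => n (Sum.inl p)) (fun q => n (Sum.inr q))) := by
      intro q
      rw [DQ_mul, DQ_xis, zero_mul, add_zero, DQ_mul, DQ_GMn, DQ_etas e he, mul_add, Finset.sum_mul,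
        Finset.mul_sum]
      refine congrArg₂ (· + ·) ?_ ?_
      · ring
      · refine Finset.sum_congr rfl fun k _ => ?_
        by_cases h : q = w'.get k
        · simp only [if_pos h, map_one]
          ring
        · simp only [if_neg h, map_zero]
          ring
    simp only [h1, map_add, map_sum, L_C_mul, ih, monomial_up]
    have hW : WH c (p :: u) w' = (∑ q, C (circ c p q) * X (Sum.inr q)) * WH c u w' +
        ∑ k : Fin w'.length, C (circ c p (w'.get k)) * WH c u (w'.eraseIdx k) := rfl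
    rw [hW, mul_add, map_add]
    simp only [mul_add, Finset.sum_add_distrib]
    refine congrArg₂ (· + ·) ?_ ?_
    · rw [Finset.sum_mul, Finset.mul_sum, map_sum]
      refine Finset.sum_congr rfl fun q _ => ?_
      rw [← LamC_C_mul]
      exact congrArg (LamC L e F) (by ring)
    · rw [Finset.mul_sum, map_sum]
      simp only [Finset.mul_sum]
      rw [Finset.sum_comm]
      refine Finset.sum_congr rfl fun k _ => ?_
      rw [Finset.sum_eq_single (w'.get k)]
      · rw [if_pos rfl, one_mul, ← LamC_C_mul]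
        exact congrArg (LamC L e F) (by ring)
      · intro q _ hq
        rw [if_neg hq]
        ring
      · intro h
        exact absurd (Finset.mem_univ _) h

end

/-- **pt:WH** -/
theorem rowWH : Pool.Agent.helper59.PT.RowWH := by
  intro ι _ _ c L hL e F he w w'
  rw [Lam_eq_re]
  congr 1
  have h := words hL e he F w w' 0
  have h1 : (monomial (0 : Sl →₀ ℕ) (1 : ℝ) : Sy) = 1 := by
    rw [monomial_zero', map_one]
  rw [h1, one_mul] at h
  exact h

end Pool.Agent.helper95.PTWH
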